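import Mathlib
import Pool.Agent.Helper25.PPDefs
import Pool.Agent.Helper25.PPMain

set_option autoImplicit false

namespace Pool.Agent.Results.MP_74cbe5_co.Unbounded

open Pool.Agent.Helper25.PP

/-- For every `ε < 1/2` and every `d` there is a connected path-pairable graph with an even number
`n` of vertices, at most `(2 - ε) n` edges and diameter larger than `d`. -/
theorem result : ∀ ε : ℝ, ε < 1 / 2 → ∀ d : ℕ,
    ∃ (V : Type) (_ : Fintype V) (G : SimpleGraph V),
      Even (Fintype.card V) ∧ G.Connected ∧ PathPairable G ∧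
      (G.edgeSet.ncard : ℝ) ≤ (2 - ε) * (Fintype.card V : ℝ) ∧ d < G.diam := by
  intro ε hε d
  obtain ⟨V, hV, G, h1, h2, h3, h4, h5⟩ := main (1 / 2 - ε) (by linarith) (d + 1)
  refine ⟨V, hV, G, h1, h2, h3, ?_, by omega⟩
  have : (3 / 2 + (1 / 2 - ε) : ℝ) = 2 - ε := by ring
  rwa [this] at h4

end Pool.Agent.Results.MP_74cbe5_co.Unbounded
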